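import Pool.Agent.H81.P4.Core
import Pool.Agent.H17.P3.Defs

set_option autoImplicit false

/-!
`ZMod 2` form of `Pool.Agent.H81.P4.exists_good`, and helper17's statement `P3`.
-/

namespace Pool.Agent.H81.P4

variable {X : Type}

theorem zmod_ne_iff (a : ZMod 2) : ¬ a = 1 ↔ a = 0 := by
  revert a; decide

theorem zmod_eq_iff (a b : ZMod 2) : (a = 1 ↔ b = 1) ↔ a = b := by
  revert a b; decide

theorem prs_of_pairs {M : X → X → ZMod 2} (h : Pool.Agent.H17.P3.Pairs M) :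
    Prs (fun x y => M x y = 1) := by
  constructor
  · intro u v hu hv huv
    rw [zmod_ne_iff] at hu hv
    obtain ⟨g, h1, h2, h3, h4⟩ := h u v (by rw [hu, hv]) (by rw [huv, hu]; decide)
    have hg : M g g = 1 := by
      rw [hu] at h1
      by_contra h'
      exact h1 ((zmod_ne_iff _).1 h')
    refine ⟨g, hg, by rw [h2, hg], by rw [h3, hg], ?_⟩
    intro x hx
    rw [zmod_eq_iff] at hx ⊢
    exact h4 x hx
  · intro u v hu hv huv
    rw [zmod_ne_iff] at huv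
    obtain ⟨g, h1, h2, h3, h4⟩ := h u v (by rw [hu, hv]) (by rw [huv, hu]; decide)
    have hg : M g g = 0 := by
      rw [hu] at h1
      exact (zmod_ne_iff _).1 h1
    refine ⟨g, by rw [hg]; decide, by rw [h2, hg]; decide, by rw [h3, hg]; decide, ?_⟩
    intro x hx
    rw [zmod_eq_iff] at hx ⊢
    exact h4 x hx

/-- the abstract lemma in `ZMod 2` form (P3') -/
theorem exists_good_zmod [Finite X] {M : X → X → ZMod 2} (hs : ∀ x y, M x y = M y x)
    (hp : Pool.Agent.H17.P3.Pairs M) {p1 p2 p3 p4 : X}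
    (h0 : Pool.Agent.H17.P3.IsP4 M p1 p2 p3 p4) :
    ∃ a b c d, Pool.Agent.H17.P3.IsP4 M a b c d ∧ M a a = 0 ∧ M b b = 1 ∧ M c c = 1 ∧ M d d = 0 ∧
      ∀ g, (∀ y, M a y = M b y → M a y = M c y → M a y = M d y → M g y = M a y) →
        ¬ (M g a ≠ M g d ∧ M g b ≠ M g c) := by
  obtain ⟨a, b, c, d, h, h1, h2, h3, h4, h5⟩ :=
    exists_good (R := fun x y => M x y = 1) (fun x y h => by rw [hs y x]; exact h)
      (prs_of_pairs hp) (p1 := p1) (p2 := p2) (p3 := p3) (p4 := p4)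
      ⟨h0.ab, h0.bc, h0.cd, by rw [zmod_ne_iff]; exact h0.ac, by rw [zmod_ne_iff]; exact h0.ad,
        by rw [zmod_ne_iff]; exact h0.bd⟩
  refine ⟨a, b, c, d, ⟨h.ab, h.bc, h.cd, (zmod_ne_iff _).1 h.ac, (zmod_ne_iff _).1 h.ad,
    (zmod_ne_iff _).1 h.bd⟩, (zmod_ne_iff _).1 h1, h2, h3, (zmod_ne_iff _).1 h4, ?_⟩
  intro g hg hbad
  refine h5 g ?_ ⟨?_, ?_⟩
  · intro y e1 e2 e3
    rw [zmod_eq_iff] at e1 e2 e3 ⊢
    exact hg y e1 e2 e3
  · rw [zmod_eq_iff]; exact hbad.1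
  · rw [zmod_eq_iff]; exact hbad.2

/-- helper17's statement -/
theorem P3_holds : Pool.Agent.H17.P3.P3 := by
  intro X _ M hs hp hsplit a b c d h0
  obtain ⟨a', b', c', d', h, h1, h2, h3, h4, h5⟩ := exists_good_zmod hs hp h0
  obtain ⟨g, hg, hg2⟩ := hsplit a' b' c' d' h h1 h2 h3 h4
  exact h5 g hg2 hg

/-- path-free case: an isolated point without loop or a full point with loop -/
theorem iso_or_full [Finite X] [Nonempty X] {M : X → X → ZMod 2} (hs : ∀ x y, M x y = M y x)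
    (hp : Pool.Agent.H17.P3.Pairs M) (h0 : ∀ a b c d, ¬ Pool.Agent.H17.P3.IsP4 M a b c d) :
    (∃ x, ∀ y, M x y = 0) ∨ (∃ x, ∀ y, M x y = 1) := by
  have h := (claims (R := fun x y => M x y = 1) (fun x y h => by rw [hs y x]; exact h)
    (prs_of_pairs hp) Set.univ (fun _ _ _ _ _ _ _ _ _ _ => trivial) (by
      rintro ⟨a, -, b, -, c, -, d, -, h⟩
      exact h0 a b c d ⟨h.ab, h.bc, h.cd, (zmod_ne_iff _).1 h.ac, (zmod_ne_iff _).1 h.ad,
        (zmod_ne_iff _).1 h.bd⟩)).1 Set.univ_nonempty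
  obtain ⟨x, -, hx⟩ | ⟨x, -, hx⟩ := h
  · exact Or.inl ⟨x, fun y => (zmod_ne_iff _).1 (hx y trivial)⟩
  · exact Or.inr ⟨x, fun y => hx y trivial⟩

end Pool.Agent.H81.P4
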