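import Mathlib

set_option autoImplicit false

/-!
The abstract lemma behind rooted (TREE) (helper44's proof), in a form without components:
a finite symmetric relation `R` (with loops) in which closed pairs have midpoints and every closed
`0110` path has a bad point which agrees with it, has no induced path `a - b - c - d`.
-/

namespace Pool.Agent.H81.P4

variable {X : Type}

/-- induced path (symmetric relation with loops) -/
structure Pth (R : X → X → Prop) (a b c d : X) : Prop where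
  ab : R a b
  bc : R b c
  cd : R c d
  ac : ¬ R a c
  ad : ¬ R a d
  bd : ¬ R b d

/-- closed pairs have midpoints -/
structure Prs (R : X → X → Prop) : Prop where
  p0 : ∀ u v, ¬ R u u → ¬ R v v → R u v →
    ∃ g, R g g ∧ R g u ∧ R g v ∧ ∀ x, (R u x ↔ R v x) → (R g x ↔ R u x)
  p1 : ∀ u v, R u u → R v v → ¬ R u v →
    ∃ g, ¬ R g g ∧ ¬ R g u ∧ ¬ R g v ∧ ∀ x, (R u x ↔ R v x) → (R g x ↔ R u x)

/-- closed under points that agree with four given ones -/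
def Cl (R : X → X → Prop) (D : Set X) : Prop :=
  ∀ a b c d g, a ∈ D → b ∈ D → c ∈ D → d ∈ D →
    (∀ y, (R a y ↔ R b y) → (R a y ↔ R c y) → (R a y ↔ R d y) → (R g y ↔ R a y)) → g ∈ D

def HasP (R : X → X → Prop) (D : Set X) : Prop :=
  ∃ a ∈ D, ∃ b ∈ D, ∃ c ∈ D, ∃ d ∈ D, Pth R a b c d

/-- the claim (A) -/
def ClA (R : X → X → Prop) (D : Set X) : Prop :=
  D.Nonempty → (∃ x ∈ D, ∀ y ∈ D, ¬ R x y) ∨ (∃ x ∈ D, ∀ y ∈ D, R x y)

def MaxN (R : X → X → Prop) (D : Set X) (b : X) : Prop :=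
  ∀ f ∈ D, (∀ t ∈ D, R b t → R f t) → ∀ t ∈ D, R f t → R b t

/-- the claim (A+) -/
def ClP (R : X → X → Prop) (D : Set X) : Prop :=
  ∀ b ∈ D, (∃ y ∈ D, R b y) → MaxN R D b → ∀ y ∈ D, ∀ z ∈ D, R b y → ¬ R b z → ¬ R y z

theorem Cl.nb {R : X → X → Prop} {D : Set X} (h : Cl R D) (w : X) :
    Cl R {y | y ∈ D ∧ R y w} := by
  intro a b c d g ha hb hc hd hg
  refine ⟨h a b c d g ha.1 hb.1 hc.1 hd.1 hg, ?_⟩
  exact (hg w (iff_of_true ha.2 hb.2) (iff_of_true ha.2 hc.2) (iff_of_true ha.2 hd.2)).2 ha.2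

theorem Cl.nnb {R : X → X → Prop} {D : Set X} (h : Cl R D) (w : X) :
    Cl R {y | y ∈ D ∧ ¬ R y w} := by
  intro a b c d g ha hb hc hd hg
  refine ⟨h a b c d g ha.1 hb.1 hc.1 hd.1 hg, ?_⟩
  intro h'
  exact ha.2 ((hg w (iff_of_false ha.2 hb.2) (iff_of_false ha.2 hc.2)
    (iff_of_false ha.2 hd.2)).1 h')

theorem Cl.mid {R : X → X → Prop} {D : Set X} (h : Cl R D) {u v g : X} (hu : u ∈ D) (hv : v ∈ D)
    (hg : ∀ x, (R u x ↔ R v x) → (R g x ↔ R u x)) : g ∈ D :=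
  h u v v v g hu hv hv hv (fun y h1 _ _ => hg y h1)

section
variable [Finite X] {R : X → X → Prop}

theorem exists_maxN (D : Set X) {x : X} (hx : x ∈ D) :
    ∃ f ∈ D, (∀ t ∈ D, R x t → R f t) ∧ MaxN R D f := by
  classical
  let N : X → Set X := fun f => {t | t ∈ D ∧ R f t}
  let S : Set X := {f | f ∈ D ∧ N x ⊆ N f}
  have hS : S.Nonempty := ⟨x, hx, subset_rfl⟩
  obtain ⟨f, hf⟩ := Set.Finite.exists_maximalFor N S (Set.toFinite S) hS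
  refine ⟨f, hf.1.1, ?_, ?_⟩
  · intro t ht hxt
    exact (hf.1.2 (⟨ht, hxt⟩ : t ∈ N x)).2
  · intro f' hf' hsub t ht hft
    have h1 : N f ⊆ N f' := fun s hs => ⟨hs.1, hsub s hs.1 hs.2⟩
    have h2 : f' ∈ S := ⟨hf', hf.1.2.trans h1⟩
    exact (hf.2 h2 h1 ⟨ht, hft⟩).2

/-- hypotheses for the proper closed subsets -/
def Sub (R : X → X → Prop) (D : Set X) : Prop := ∀ E, E ⊂ D → Cl R E → ClA R E ∧ ClP R E

omit [Finite X] in
theorem Sub.mono {D E : Set X} (h : Sub R D) (hE : E ⊆ D) : Sub R E :=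
  fun F hF hc => h F (hF.trans_subset hE) hc

variable (hs : ∀ x y, R x y → R y x) (hp : Prs R)
include hs hp

omit [Finite X] in
/-- step (1) -/
theorem plus {D : Set X} (hc : Cl R D) (hsub : Sub R D) {w : X} (hw : w ∈ D) (hl : ¬ R w w)
    (hn : ∃ y ∈ D, R w y) :
    ∃ x ∈ D, R w x ∧ R x x ∧ ∀ y ∈ D, R w y → R x y := by
  have hE : {y | y ∈ D ∧ R y w} ⊂ D := by
    refine ⟨fun y hy => hy.1, fun h => ?_⟩
    exact hl (h hw).2
  obtain ⟨y0, hy0, hwy0⟩ := hn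
  obtain ⟨x, hx, hx'⟩ | ⟨x, hx, hx'⟩ := (hsub _ hE (hc.nb w)).1 ⟨y0, hy0, hs _ _ hwy0⟩
  · exfalso
    obtain ⟨g, hg1, hg2, hg3, hg4⟩ := hp.p0 w x hl (hx' x hx) (hs _ _ hx.2)
    have hgD : g ∈ D := hc.mid hw hx.1 hg4
    exact hx' g ⟨hgD, hg2⟩ (hs _ _ hg3)
  · exact ⟨x, hx.1, hs _ _ hx.2, hx' x hx, fun y hy hwy => hx' y ⟨hy, hs _ _ hwy⟩⟩

omit [Finite X] in
/-- a maximal point has a loop -/
theorem maxLoop {D : Set X} (hc : Cl R D) (hsub : Sub R D) {b : X} (hb : b ∈ D)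
    (hn : ∃ y ∈ D, R b y) (hm : MaxN R D b) : R b b := by
  by_contra hl
  obtain ⟨x, hx, hbx, -, hx2⟩ := plus hs hp hc hsub hb hl hn
  exact hl (hm x hx hx2 b hb (hs _ _ hbx))

omit [Finite X] in
/-- step (2) -/
theorem two {D : Set X} (hc : Cl R D) (hsub : Sub R D) {b c : X} (hcD : c ∈ D)
    (hbb : R b b) (hcc : R c c) (hbc : R b c) (hn : ∃ y ∈ D, R b y ∧ ¬ R c y) :
    ∃ a ∈ D, R b a ∧ ¬ R c a ∧ ¬ R a a ∧ ∀ y ∈ D, R b y → ¬ R c y → ¬ R a y := by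
  have hE : {y | y ∈ {y | y ∈ D ∧ R y b} ∧ ¬ R y c} ⊂ D := by
    refine ⟨fun y hy => hy.1.1, fun h => ?_⟩
    exact (h hcD).2 hcc
  have hcl : Cl R {y | y ∈ {y | y ∈ D ∧ R y b} ∧ ¬ R y c} := (hc.nb b).nnb c
  obtain ⟨y0, hy0, hby0, hcy0⟩ := hn
  obtain ⟨a, ha, ha'⟩ | ⟨a, ha, ha'⟩ := (hsub _ hE hcl).1
    ⟨y0, ⟨hy0, hs _ _ hby0⟩, fun h => hcy0 (hs _ _ h)⟩
  · refine ⟨a, ha.1.1, hs _ _ ha.1.2, fun h => ha.2 (hs _ _ h), ha' a ha, ?_⟩
    intro y hy h1 h2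
    exact ha' y ⟨⟨hy, hs _ _ h1⟩, fun h => h2 (hs _ _ h)⟩
  · exfalso
    obtain ⟨g, hg1, hg2, hg3, hg4⟩ := hp.p1 a c (ha' a ha) hcc ha.2
    have hgD : g ∈ D := hc.mid ha.1.1 hcD hg4
    have hgb : R g b := (hg4 b (iff_of_true ha.1.2 (hs _ _ hbc))).2 ha.1.2
    exact hg2 (hs _ _ (ha' g ⟨⟨hgD, hgb⟩, hg3⟩))

/-- the path builder, steps (3), (4) -/
theorem build {D : Set X} (hc : Cl R D) (hsub : Sub R D) {b : X} (hb : b ∈ D)
    (hm : MaxN R D b) {y z : X} (hy : y ∈ D) (hz : z ∈ D) (hby : R b y) (hbz : ¬ R b z)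
    (hyz : R y z) :
    ∃ a ∈ D, ∃ c ∈ D, ∃ d ∈ D, Pth R a b c d ∧ ¬ R a a ∧ R b b ∧ R c c ∧ ¬ R d d ∧
      (∀ t ∈ D, R d t → R b t) ∧ (∀ t ∈ D, R d t → R c t) ∧
      (∀ t ∈ D, R b t → ¬ R c t → ¬ R a t) := by
  have hbb : R b b := maxLoop hs hp hc hsub hb ⟨y, hy, hby⟩ hm
  -- a looped neighbour of b with a neighbour outside N(b)
  obtain ⟨c, hcD, hcc, hbc, hcn⟩ : ∃ c ∈ D, R c c ∧ R b c ∧ ∃ t ∈ D, R c t ∧ ¬ R b t := by
    by_cases hyy : R y y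
    · exact ⟨y, hy, hyy, hby, z, hz, hyz, hbz⟩
    · obtain ⟨x, hx, hyx, hxx, hx2⟩ := plus hs hp hc hsub hy hyy ⟨z, hz, hyz⟩
      exact ⟨x, hx, hxx, hs _ _ (hx2 b hb (hs _ _ hby)), z, hz, hx2 z hz hyz, hbz⟩
  obtain ⟨d', hd'D, hcd', hbd', hd'l, hd'iso⟩ :=
    two hs hp hc hsub hb hcc hbb (hs _ _ hbc) hcn
  obtain ⟨q, hqD, hd'q, hqq, hq2⟩ := plus hs hp hc hsub hd'D hd'l ⟨c, hcD, hs _ _ hcd'⟩
  have hqb : R b q := by
    by_contra h
    exact hd'iso q hqD (hs _ _ (hq2 c hcD (hs _ _ hcd'))) h hd'q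
  -- the point d
  obtain ⟨d, hdD, hdl, hbd, hdn, hdsub⟩ :
      ∃ d ∈ D, ¬ R d d ∧ ¬ R b d ∧ (∃ t ∈ D, R d t) ∧ ∀ t ∈ D, R d t → R b t := by
    by_cases hcase : ∀ t ∈ D, R d' t → R b t
    · exact ⟨d', hd'D, hd'l, hbd', ⟨c, hcD, hs _ _ hcd'⟩, hcase⟩
    · push_neg at hcase
      obtain ⟨t0, ht0, hd't0, hbt0⟩ := hcase
      have hGD : {y | y ∈ D ∧ ¬ R y b} ⊂ D := by
        refine ⟨fun y hy => hy.1, fun h => ?_⟩
        exact (h hb).2 hbb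
      have hGc : Cl R {y | y ∈ D ∧ ¬ R y b} := hc.nnb b
      have hGs : Sub R {y | y ∈ D ∧ ¬ R y b} := hsub.mono hGD.1
      have hd'G : d' ∈ {y | y ∈ D ∧ ¬ R y b} := ⟨hd'D, fun h => hbd' (hs _ _ h)⟩
      obtain ⟨x, hx, hd'x, hxx, hx2⟩ := plus hs hp hGc hGs hd'G hd'l
        ⟨t0, ⟨ht0, fun h => hbt0 (hs _ _ h)⟩, hd't0⟩
      obtain ⟨f, hf, hf1, hfm⟩ := exists_maxN (R := R) _ hx
      have hfd' : R f d' := hf1 d' hd'G (hs _ _ hd'x)
      have hff : R f f := maxLoop hs hp hGc hGs hf ⟨d', hd'G, hfd'⟩ hfm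
      have hfq : R f q := hs _ _ (hq2 f hf.1 (hs _ _ hfd'))
      have hclosed := (hsub _ hGD hGc).2 f hf ⟨d', hd'G, hfd'⟩ hfm
      obtain ⟨g, hg1, hg2, hg3, hg4⟩ := hp.p1 f b hff hbb hf.2
      have hgD : g ∈ D := hc.mid hf.1 hb hg4
      have hgG : g ∈ {y | y ∈ D ∧ ¬ R y b} := ⟨hgD, hg3⟩
      refine ⟨g, hgD, hg1, fun h => hg3 (hs _ _ h), ⟨q, hqD, ?_⟩, ?_⟩
      · exact (hg4 q (iff_of_true hfq hqb)).2 hfq
      · intro t ht hgt
        by_contra hbt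
        have htG : t ∈ {y | y ∈ D ∧ ¬ R y b} := ⟨ht, fun h => hbt (hs _ _ h)⟩
        by_cases hft : R f t
        · exact hclosed t htG g hgG hft (fun h => hg2 (hs _ _ h)) (hs _ _ hgt)
        · exact hft ((hg4 t (iff_of_false hft hbt)).1 hgt)
  obtain ⟨c2, hc2D, hdc2, hc2c2, hc22⟩ := plus hs hp hc hsub hdD hdl hdn
  have hbc2 : R b c2 := hdsub c2 hc2D hdc2
  have hn : ∃ t ∈ D, R b t ∧ ¬ R c2 t := by
    by_contra h
    push_neg at h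
    exact hbd (hm c2 hc2D h d hdD (hs _ _ hdc2))
  obtain ⟨a, haD, hba, hc2a, hal, haiso⟩ := two hs hp hc hsub hc2D hbb hc2c2 hbc2 hn
  refine ⟨a, haD, c2, hc2D, d, hdD, ⟨hs _ _ hba, hbc2, hs _ _ hdc2, fun h => hc2a (hs _ _ h),
    fun h => hc2a (hc22 a haD (hs _ _ h)), hbd⟩, hal, hbb, hc2c2, hdl, hdsub, hc22, haiso⟩

/-- (A) and (A+) for path-free closed sets -/
theorem claims : ∀ D : Set X, Cl R D → ¬ HasP R D → ClA R D ∧ ClP R D := by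
  intro D
  induction D using WellFoundedLT.induction with
  | ind D ih =>
    intro hc hP
    have hsub : Sub R D := fun E hE hcE => ih E hE hcE (fun ⟨a, ha, b, hb, c, hc', d, hd, h⟩ =>
      hP ⟨a, hE.1 ha, b, hE.1 hb, c, hE.1 hc', d, hE.1 hd, h⟩)
    have hplus : ClP R D := by
      intro b hb hn hm y hy z hz hby hbz hyz
      obtain ⟨a, ha, c, hc', d, hd, h, -⟩ := build hs hp hc hsub hb hm hy hz hby hbz hyz
      exact hP ⟨a, ha, b, hb, c, hc', d, hd, h⟩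
    refine ⟨?_, hplus⟩
    intro hne
    by_cases hall : ∀ x ∈ D, ∀ y ∈ D, ¬ R x y
    · obtain ⟨x, hx⟩ := hne
      exact Or.inl ⟨x, hx, hall x hx⟩
    · push_neg at hall
      obtain ⟨x, hx, y, hy, hxy⟩ := hall
      obtain ⟨b, hb, hb1, hbm⟩ := exists_maxN (R := R) D hx
      have hbn : ∃ y ∈ D, R b y := ⟨y, hy, hb1 y hy hxy⟩
      have hbb : R b b := maxLoop hs hp hc hsub hb hbn hbm
      by_cases hfull : ∀ y ∈ D, R b y
      · exact Or.inr ⟨b, hb, hfull⟩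
      · push_neg at hfull
        obtain ⟨z0, hz0, hbz0⟩ := hfull
        have hGD : {y | y ∈ D ∧ ¬ R y b} ⊂ D := by
          refine ⟨fun y hy => hy.1, fun h => ?_⟩
          exact (h hb).2 hbb
        have hGc : Cl R {y | y ∈ D ∧ ¬ R y b} := hc.nnb b
        obtain ⟨u, hu, hu'⟩ | ⟨u, hu, hu'⟩ := (hsub _ hGD hGc).1
          ⟨z0, hz0, fun h => hbz0 (hs _ _ h)⟩
        · refine Or.inl ⟨u, hu.1, ?_⟩
          intro t ht hut
          by_cases hbt : R b t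
          · exact hplus b hb hbn hbm t ht u hu.1 hbt (fun h => hu.2 (hs _ _ h)) (hs _ _ hut)
          · exact hu' t ⟨ht, fun h => hbt (hs _ _ h)⟩ hut
        · exfalso
          obtain ⟨g, hg1, hg2, hg3, hg4⟩ := hp.p1 u b (hu' u hu) hbb hu.2
          have hgD : g ∈ D := hc.mid hu.1 hb hg4
          exact hg2 (hs _ _ (hu' g ⟨hgD, hg3⟩))

/-- the lemma for a minimal closed set without full point -/
theorem core {C : Set X} (hc : Cl R C) (hP : HasP R C)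
    (hmin : ∀ E, E ⊂ C → Cl R E → ¬ HasP R E) (hnf : ∀ x ∈ C, ∃ y ∈ C, ¬ R x y) :
    ∃ a ∈ C, ∃ b ∈ C, ∃ c ∈ C, ∃ d ∈ C, Pth R a b c d ∧ ¬ R a a ∧ R b b ∧ R c c ∧ ¬ R d d ∧
      ∀ g ∈ C, ¬ (¬ (R g a ↔ R g d) ∧ ¬ (R g b ↔ R g c)) := by
  have hsub : Sub R C := fun E hE hcE => claims hs hp E hcE (hmin E hE hcE)
  obtain ⟨p1, h1, p2, h2, p3, h3, p4, h4, hp'⟩ := hP
  obtain ⟨b, hb, hb1, hbm⟩ := exists_maxN (R := R) C h1
  have hbn : ∃ y ∈ C, R b y := ⟨p2, h2, hb1 p2 h2 hp'.ab⟩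
  have hbb : R b b := maxLoop hs hp hc hsub hb hbn hbm
  have hedge : ∃ y ∈ C, ∃ z ∈ C, R b y ∧ ¬ R b z ∧ R y z := by
    by_contra hno
    push_neg at hno
    have hside : ∀ s ∈ C, ∀ t ∈ C, R s t → (R b s ↔ R b t) := by
      intro s hs' t ht hst
      constructor
      · intro h
        by_contra h'
        exact hno s hs' t ht h h' hst
      · intro h
        by_contra h'
        exact hno t ht s hs' h h' (hs _ _ hst)
    have e12 := hside p1 h1 p2 h2 hp'.ab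
    have e23 := hside p2 h2 p3 h3 hp'.bc
    have e34 := hside p3 h3 p4 h4 hp'.cd
    by_cases hb1' : R b p1
    · have hE : {y | y ∈ C ∧ R y b} ⊂ C := by
        refine ⟨fun y hy => hy.1, fun h => ?_⟩
        obtain ⟨t, ht, hbt⟩ := hnf b hb
        exact hbt (hs _ _ (h ht).2)
      refine hmin _ hE (hc.nb b) ⟨p1, ⟨h1, hs _ _ hb1'⟩, p2, ⟨h2, hs _ _ (e12.1 hb1')⟩,
        p3, ⟨h3, hs _ _ (e23.1 (e12.1 hb1'))⟩, p4, ⟨h4, hs _ _ (e34.1 (e23.1 (e12.1 hb1')))⟩, hp'⟩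
    · have hE : {y | y ∈ C ∧ ¬ R y b} ⊂ C := by
        refine ⟨fun y hy => hy.1, fun h => ?_⟩
        exact (h hb).2 hbb
      have n2 : ¬ R b p2 := fun h => hb1' (e12.2 h)
      have n3 : ¬ R b p3 := fun h => n2 (e23.2 h)
      have n4 : ¬ R b p4 := fun h => n3 (e34.2 h)
      exact hmin _ hE (hc.nnb b) ⟨p1, ⟨h1, fun h => hb1' (hs _ _ h)⟩, p2,
        ⟨h2, fun h => n2 (hs _ _ h)⟩, p3, ⟨h3, fun h => n3 (hs _ _ h)⟩, p4,
        ⟨h4, fun h => n4 (hs _ _ h)⟩, hp'⟩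
  obtain ⟨y, hy, z, hz, hby, hbz, hyz⟩ := hedge
  obtain ⟨a, ha, c, hcC, d, hd, hpa, hal, -, hcc, hdl, hdb, hdc, haiso⟩ :=
    build hs hp hc hsub hb hbm hy hz hby hbz hyz
  refine ⟨a, ha, b, hb, c, hcC, d, hd, hpa, hal, hbb, hcc, hdl, ?_⟩
  rintro g hg ⟨hg1, hg2⟩
  by_cases hgd : R g d
  · exact hg2 (iff_of_true (hs _ _ (hdb g hg (hs _ _ hgd))) (hs _ _ (hdc g hg (hs _ _ hgd))))
  · have hga : R g a := by
      by_contra h
      exact hg1 (iff_of_false h hgd)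
    by_cases hgb : R g b
    · have hgc : ¬ R g c := fun h => hg2 (iff_of_true hgb h)
      exact haiso g hg (hs _ _ hgb) (fun h => hgc (hs _ _ h)) (hs _ _ hga)
    · have hgc : R g c := by
        by_contra h
        exact hg2 (iff_of_false hgb h)
      -- the last case: g sees exactly a, c
      have hEC : {y | y ∈ C ∧ ¬ R y d} ⊂ C := by
        refine ⟨fun y hy => hy.1, fun h => ?_⟩
        exact (h hcC).2 hpa.cd
      have hEc : Cl R {y | y ∈ C ∧ ¬ R y d} := hc.nnb d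
      have hEs : Sub R {y | y ∈ C ∧ ¬ R y d} := hsub.mono hEC.1
      have haE : a ∈ {y | y ∈ C ∧ ¬ R y d} := ⟨ha, hpa.ad⟩
      have hbE : b ∈ {y | y ∈ C ∧ ¬ R y d} := ⟨hb, hpa.bd⟩
      have hgE : g ∈ {y | y ∈ C ∧ ¬ R y d} := ⟨hg, hgd⟩
      obtain ⟨x, hx, hax, hxx, hx2⟩ := plus hs hp hEc hEs haE hal ⟨b, hbE, hpa.ab⟩
      obtain ⟨f, hf, hf1, hfm⟩ := exists_maxN (R := R) _ hx
      have hfa : R f a := hf1 a haE (hs _ _ hax)
      have hfb : R f b := hf1 b hbE (hx2 b hbE hpa.ab)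
      have hfg : R f g := hf1 g hgE (hx2 g hgE (hs _ _ hga))
      have hclosed := (hsub _ hEC hEc).2 f hf ⟨a, haE, hfa⟩ hfm
      have hfc : R c f := by
        by_contra h
        exact haiso f hf.1 (hs _ _ hfb) h (hs _ _ hfa)
      have hNb : ∀ t ∈ C, R b t → ¬ R d t → R f t := by
        intro t ht hbt hdt
        by_contra hft
        exact hclosed b hbE t ⟨ht, fun h => hdt (hs _ _ h)⟩ hfb hft hbt
      obtain ⟨v, hv, hdv, hfv⟩ : ∃ v ∈ C, R d v ∧ ¬ R f v := by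
        by_contra h
        push_neg at h
        have hall : ∀ t ∈ C, R b t → R f t := by
          intro t ht hbt
          by_cases hdt : R d t
          · exact h t ht hdt
          · exact hNb t ht hbt hdt
        exact hgb (hs _ _ (hbm f hf.1 hall g hg hfg))
      have hE2 : {y | y ∈ C ∧ R y c} ⊂ C := by
        refine ⟨fun y hy => hy.1, fun h => ?_⟩
        exact hpa.ac (h ha).2
      exact hmin _ hE2 (hc.nb c) ⟨f, ⟨hf.1, hs _ _ hfc⟩, b, ⟨hb, hpa.bc⟩,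
        v, ⟨hv, hs _ _ (hdc v hv hdv)⟩, d, ⟨hd, hs _ _ hpa.cd⟩,
        ⟨hfb, hdb v hv hdv, hs _ _ hdv, hfv, hf.2, hpa.bd⟩⟩

end

section compl
variable {R : X → X → Prop}

theorem Prs.compl (hp : Prs R) : Prs (fun x y => ¬ R x y) := by
  constructor
  · intro u v hu hv huv
    obtain ⟨g, h1, h2, h3, h4⟩ := hp.p1 u v (not_not.1 hu) (not_not.1 hv) huv
    exact ⟨g, h1, h2, h3, fun x hx => not_congr (h4 x (not_iff_not.1 hx))⟩
  · intro u v hu hv huv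
    obtain ⟨g, h1, h2, h3, h4⟩ := hp.p0 u v hu hv (not_not.1 huv)
    exact ⟨g, not_not.2 h1, not_not.2 h2, not_not.2 h3,
      fun x hx => not_congr (h4 x (not_iff_not.1 hx))⟩

theorem cl_compl (D : Set X) : Cl (fun x y => ¬ R x y) D ↔ Cl R D := by
  unfold Cl
  simp only [not_iff_not]

theorem pth_compl (hs : ∀ x y, R x y → R y x) {a b c d : X} (h : Pth (fun x y => ¬ R x y) a b c d) :
    Pth R c a d b :=
  ⟨hs _ _ (not_not.1 h.ac), not_not.1 h.ad, hs _ _ (not_not.1 h.bd), fun h' => h.cd h',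
    fun h' => h.bc (hs _ _ h'), fun h' => h.ab h'⟩

theorem pth_compl' (hs : ∀ x y, R x y → R y x) {a b c d : X} (h : Pth R a b c d) :
    Pth (fun x y => ¬ R x y) b d a c :=
  ⟨h.bd, fun h' => h.ad (hs _ _ h'), h.ac, not_not.2 (hs _ _ h.ab), not_not.2 h.bc,
    not_not.2 (hs _ _ h.cd)⟩

theorem hasP_compl (hs : ∀ x y, R x y → R y x) (D : Set X) :
    HasP (fun x y => ¬ R x y) D ↔ HasP R D := by
  constructor
  · rintro ⟨a, ha, b, hb, c, hc, d, hd, h⟩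
    exact ⟨c, hc, a, ha, d, hd, b, hb, pth_compl hs h⟩
  · rintro ⟨a, ha, b, hb, c, hc, d, hd, h⟩
    exact ⟨b, hb, d, hd, a, ha, c, hc, pth_compl' hs h⟩

end compl

/-- **main abstract lemma** -/
theorem exists_good [Finite X] {R : X → X → Prop} (hs : ∀ x y, R x y → R y x) (hp : Prs R)
    {p1 p2 p3 p4 : X} (h0 : Pth R p1 p2 p3 p4) :
    ∃ a b c d, Pth R a b c d ∧ ¬ R a a ∧ R b b ∧ R c c ∧ ¬ R d d ∧
      ∀ g, (∀ y, (R a y ↔ R b y) → (R a y ↔ R c y) → (R a y ↔ R d y) → (R g y ↔ R a y)) →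
        ¬ (¬ (R g a ↔ R g d) ∧ ¬ (R g b ↔ R g c)) := by
  classical
  -- a minimal closed set with a path
  have hex : ∃ C : Set X, Cl R C ∧ HasP R C ∧ ∀ E, E ⊂ C → Cl R E → ¬ HasP R E := by
    let S : Set (Set X) := {C | Cl R C ∧ HasP R C}
    have hS : S.Nonempty := ⟨Set.univ, fun _ _ _ _ _ _ _ _ _ _ => trivial,
      p1, trivial, p2, trivial, p3, trivial, p4, trivial, h0⟩
    obtain ⟨C, hC⟩ := Set.Finite.exists_minimal (Set.toFinite S) hS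
    refine ⟨C, hC.1.1, hC.1.2, ?_⟩
    intro E hE hcE hPE
    exact hE.2 (hC.2 (⟨hcE, hPE⟩ : E ∈ S) hE.1)
  obtain ⟨C, hc, hP, hmin⟩ := hex
  by_cases hnf : ∀ x ∈ C, ∃ y ∈ C, ¬ R x y
  · obtain ⟨a, ha, b, hb, c, hcC, d, hd, h, h1, h2, h3, h4, h5⟩ := core hs hp hc hP hmin hnf
    exact ⟨a, b, c, d, h, h1, h2, h3, h4, fun g hg => h5 g (hc a b c d g ha hb hcC hd hg)⟩
  · push_neg at hnf
    obtain ⟨w, hw, hwf⟩ := hnf
    have hs' : ∀ x y, ¬ R x y → ¬ R y x := fun x y h h' => h (hs _ _ h')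
    have hnf' : ∀ x ∈ C, ∃ y ∈ C, ¬ ¬ R x y := fun x hx => ⟨w, hw, not_not.2 (hs _ _ (hwf x hx))⟩
    obtain ⟨a, ha, b, hb, c, hcC, d, hd, h, h1, h2, h3, h4, h5⟩ :=
      core (R := fun x y => ¬ R x y) hs' hp.compl ((cl_compl C).2 hc) ((hasP_compl hs C).2 hP)
        (fun E hE hcE hPE => hmin E hE ((cl_compl E).1 hcE) ((hasP_compl hs E).1 hPE)) hnf'
    refine ⟨c, a, d, b, pth_compl hs h, h3, not_not.1 h1, not_not.1 h4, h2, ?_⟩
    intro g hg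
    have hgC : g ∈ C := hc c a d b g hcC ha hd hb hg
    intro hbad
    exact h5 g hgC ⟨fun h => hbad.2 (not_iff_not.1 h), fun h => hbad.1 (not_iff_not.1 h).symm⟩

end Pool.Agent.H81.P4
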