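import Pool.Agent.H81.P4.Main

set_option autoImplicit false

/-!
Path-free case: there is a point `x ≠ e` whose row agrees with the row of another point off `x`
(so `x` is a leaf of the graph of the inverse matrix).
-/

namespace Pool.Agent.H81.P4

variable {X : Type}

theorem HasP.mono {R : X → X → Prop} {D E : Set X} (h : D ⊆ E) : HasP R D → HasP R E :=
  fun ⟨a, ha, b, hb, c, hc, d, hd, k⟩ => ⟨a, h ha, b, h hb, c, h hc, d, h hd, k⟩

theorem leaf_aux [Finite X] : ∀ (D : Set X) (R : X → X → Prop), (∀ x y, R x y → R y x) → Prs R →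
    Cl R D → ¬ HasP R D → (∀ x y, (∀ t, R x t ↔ R y t) → x = y) →
    ∀ p ∈ D, (∀ y ∈ D, ¬ R p y) → (∀ x ∈ D, ∀ y, y ∉ D → (R x y ↔ R p y)) →
    (∃ x ∈ D, x ≠ p) →
    ∃ x ∈ D, x ≠ p ∧ ∃ p' ∈ D, p' ≠ x ∧ ∀ t, t ≠ x → (R x t ↔ R p' t) := by
  intro D
  induction D using WellFoundedLT.induction with
  | ind D ih =>
    intro R hs hp hc hP hinj p hpD hp0 hoff hex
    have hsub : Sub R D := fun E hE hcE =>
      claims hs hp E hcE (fun h => hP (h.mono hE.1))
    have hplus := (claims hs hp D hc hP).2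
    have hne : ∃ x ∈ D, ∃ y ∈ D, R x y := by
      by_contra h
      push Not at h
      obtain ⟨x, hx, hxp⟩ := hex
      refine hxp (hinj x p ?_)
      intro t
      by_cases ht : t ∈ D
      · exact iff_of_false (h x hx t ht) (hp0 t ht)
      · exact hoff x hx t ht
    obtain ⟨x0, hx0, y0, hy0, hxy⟩ := hne
    obtain ⟨b, hb, hb1, hbm⟩ := exists_maxN (R := R) D hx0
    have hbn : ∃ y ∈ D, R b y := ⟨y0, hy0, hb1 y0 hy0 hxy⟩
    have hbb : R b b := maxLoop hs hp hc hsub hb hbn hbm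
    have hbp : b ≠ p := by
      rintro rfl
      exact hp0 b hb hbb
    have hpN : ¬ R p b := hp0 b hb
    have hE : {y | y ∈ D ∧ R y b} ⊂ D := by
      refine ⟨fun y hy => hy.1, fun h => ?_⟩
      exact hpN (h hpD).2
    have hbE : b ∈ {y | y ∈ D ∧ R y b} := ⟨hb, hbb⟩
    have hoffE : ∀ x ∈ {y | y ∈ D ∧ R y b}, ∀ y, y ∉ {y | y ∈ D ∧ R y b} → (R x y ↔ R b y) := by
      intro x hx y hy
      by_cases hyD : y ∈ D
      · have hyb : ¬ R y b := fun h => hy ⟨hyD, h⟩
        have hby : ¬ R b y := fun h => hyb (hs _ _ h)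
        exact iff_of_false (hplus b hb hbn hbm x hx.1 y hyD (hs _ _ hx.2) hby) hby
      · rw [hoff x hx.1 y hyD, hoff b hb y hyD]
    by_cases hcase : ∃ x ∈ {y | y ∈ D ∧ R y b}, x ≠ b
    · have hs' : ∀ x y, ¬ R x y → ¬ R y x := fun x y h h' => h (hs _ _ h')
      obtain ⟨x, hx, hxb, p', hp', hp'x, hrow⟩ :=
        ih {y | y ∈ D ∧ R y b} hE (fun x y => ¬ R x y) hs' hp.compl
          ((cl_compl _).2 (hc.nb b))
          (fun h => hP (((hasP_compl hs _).1 h).mono hE.1))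
          (fun x y h => hinj x y (fun t => not_iff_not.1 (h t))) b hbE
          (fun y hy => not_not.2 (hs _ _ hy.2))
          (fun x hx y hy => not_congr (hoffE x hx y hy)) hcase
      refine ⟨x, hx.1, ?_, p', hp'.1, hp'x, fun t ht => not_iff_not.1 (hrow t ht)⟩
      rintro rfl
      exact hpN hx.2
    · push Not at hcase
      refine ⟨b, hb, hbp, p, hpD, hbp.symm, ?_⟩
      intro t ht
      by_cases htD : t ∈ D
      · refine iff_of_false (fun h => ht (hcase t ⟨htD, hs _ _ h⟩)) (hp0 t htD)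
      · exact hoff b hb t htD

/-- **the leaf**: `M` symmetric, `Pairs`, no induced path, `e` has zero row, rows distinct -/
theorem exists_leaf_rows [Finite X] {M : X → X → ZMod 2} (hs : ∀ x y, M x y = M y x)
    (hp : Pool.Agent.H17.P3.Pairs M) (h0 : ∀ a b c d, ¬ Pool.Agent.H17.P3.IsP4 M a b c d)
    (hinj : ∀ x y, (∀ t, M x t = M y t) → x = y) {e : X} (he : ∀ y, M e y = 0)
    (hex : ∃ x, x ≠ e) :
    ∃ x, x ≠ e ∧ ∃ p, p ≠ x ∧ (∀ t, t ≠ x → M x t = M p t) ∧ M x x ≠ M p x := by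
  obtain ⟨x, -, hxe, p, -, hpx, h⟩ :=
    leaf_aux Set.univ (fun x y => M x y = 1) (fun x y h => by rw [hs y x]; exact h)
      (prs_of_pairs hp) (fun _ _ _ _ _ _ _ _ _ _ => trivial) (by
        rintro ⟨a, -, b, -, c, -, d, -, h⟩
        exact h0 a b c d ⟨h.ab, h.bc, h.cd, (zmod_ne_iff _).1 h.ac, (zmod_ne_iff _).1 h.ad,
          (zmod_ne_iff _).1 h.bd⟩)
      (fun x y h => hinj x y (fun t => (zmod_eq_iff _ _).1 (h t))) e trivial
      (fun y _ => by rw [he y]; decide) (fun _ _ y hy => absurd trivial hy)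
      (by obtain ⟨x, hx⟩ := hex; exact ⟨x, trivial, hx⟩)
  refine ⟨x, hxe, p, hpx, fun t ht => (zmod_eq_iff _ _).1 (h t ht), ?_⟩
  intro hxx
  apply hpx
  apply hinj
  intro t
  by_cases ht : t = x
  · rw [ht, hxx]
  · exact ((zmod_eq_iff _ _).1 (h t ht)).symm

end Pool.Agent.H81.P4
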